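import Pool.Agent.helper57.DH.SpecL

/-! # Project d2 (MP_5823cb_al), part L, row LLV: levels (helper38) -/

set_option autoImplicit false

open Filter Topology MeasureTheory
open scoped commutatorElement

namespace Pool.Agent.helper90.DH

open Pool.Agent.helper64.D2

theorem LLV_PAsub {s : ℕ} {f g : ℝ → ℝ} (hf : PA s f) (hg : PA s g) : PA s (fun x => f x - g x) := by
  intro k
  obtain ⟨a, b, h1⟩ := hf k
  obtain ⟨a', b', h2⟩ := hg k
  refine ⟨a - a', b - b', fun x hx => ?_⟩
  show f x - g x = _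
  rw [h1 x hx, h2 x hx]
  ring

theorem LLV_nn (f : ℝ → ℝ) : 0 ≤ nsq f := integral_nonneg fun _ => sq_nonneg _

theorem LLV_sup (hLEB : LEB_stmt) {f : ℝ → ℝ} {a b a' b' : ℝ} (h : ∀ x, x ∉ Set.Icc a b → f x = 0) {r : ℕ} (hr : 10 ≤ r)
    (h1 : a' ≤ a - 1 / 1000) (h2 : b + 1 / 1000 ≤ b') {x : ℝ} (hx : x ∉ Set.Icc a' b') : Es r f x = 0 := by
  refine hLEB.2.2 r f a b h x ?_
  intro hx'
  apply hx
  have h3 : (1 : ℝ) / 2 ^ r ≤ 1 / 1000 := by
    apply one_div_le_one_div_of_le (by norm_num)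
    calc (1000 : ℝ) ≤ 2 ^ 10 := by norm_num
      _ ≤ 2 ^ r := pow_le_pow_right₀ (by norm_num) hr
  exact ⟨by linarith [hx'.1], by linarith [hx'.2]⟩

theorem LLV (hLBM : LBM_stmt) (hLEA : LEA_stmt) (hLEP : LEP_stmt) (hLEB : LEB_stmt) : LLV_stmt := by
  obtain ⟨hcl, -, -, hBE, -⟩ := hLBM
  obtain ⟨hPm, hPE, hPr, hlin, -, htow, -⟩ := hLEA
  obtain ⟨-, hpyth, -⟩ := hLEP
  intro f hf
  have hEBM : ∀ s, BM (Es s f) := fun s => (hBE s f hf).1
  have hA : ∀ r : ℕ, PA (r + 1) (Ds r f) ∧ BM (Ds r f) ∧ ∀ x, Es r (Ds r f) x = 0 := by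
    intro r
    refine ⟨LLV_PAsub (hPE (r + 1) f) (hPm r (r + 1) _ (Nat.le_succ r) (hPE r f)), (hBE r f hf).2.1, fun x => ?_⟩
    have h1 := (hlin r (Es (r + 1) f) (Es r f) (hEBM _) (hEBM _) x).2
    have h2 : Es r (Ds r f) x = Es r (Es (r + 1) f) x - Es r (Es r f) x := h1
    rw [h2, (htow r (r + 1) f hf (Nat.le_succ r) x).1, (htow r r f hf le_rfl x).1, sub_self]
  have husPA : ∀ s0 s : ℕ, s0 ≤ s → PA s (us s0 s f) := fun s0 s hs =>
    LLV_PAsub (hPE s f) (hPm s0 s _ hs (hPE s0 f))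
  have hsubBM : ∀ g h : ℝ → ℝ, BM g → BM h → BM (fun x => g x - h x) := fun g h hg hh => (hcl g h hg hh).2.1
  · have husBM : ∀ s0 s : ℕ, BM (us s0 s f) := fun s0 s => hsubBM _ _ (hEBM s) (hEBM s0)
    have husum : ∀ s0 s : ℕ, s0 ≤ s → ∀ x, us s0 s f x = ∑ r ∈ Finset.Ico s0 s, Ds r f x := by
      intro s0 s hs x
      induction s, hs using Nat.le_induction with
      | base => simp [us]
      | succ s hs ih =>
        rw [Finset.sum_Ico_succ_top hs, ← ih]
        unfold us Ds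
        ring
    have hus0 : ∀ s0 s : ℕ, s0 ≤ s → ∀ x, Es s0 (us s0 s f) x = 0 := by
      intro s0 s hs x
      have h1 : Es s0 (us s0 s f) x = Es s0 (Es s f) x - Es s0 (Es s0 f) x := (hlin s0 (Es s f) (Es s0 f) (hEBM _) (hEBM _) x).2
      rw [h1, (htow s0 s f hf hs x).1, (htow s0 s0 f hf le_rfl x).1, sub_self]
    have husn : ∀ s0 s : ℕ, s0 ≤ s → nsq (us s0 s f) = ∑ r ∈ Finset.Ico s0 s, nsq (Ds r f) := by
      intro s0 s hs
      induction s, hs using Nat.le_induction with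
      | base =>
        have : us s0 s0 f = fun _ => 0 := by funext x; simp [us]
        rw [this]
        simp [nsq]
      | succ s hs ih =>
        rw [Finset.sum_Ico_succ_top hs, ← ih, hpyth s (us s0 (s + 1) f) (husBM _ _)]
        have h1 : ∀ x, Es s (us s0 (s + 1) f) x = us s0 s f x := by
          intro x
          have h2 : Es s (us s0 (s + 1) f) x = Es s (Es (s + 1) f) x - Es s (Es s0 f) x := (hlin s (Es (s + 1) f) (Es s0 f) (hEBM _) (hEBM _) x).2
          rw [h2, (htow s (s + 1) f hf (Nat.le_succ s) x).1, (htow s0 s f hf hs x).2]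
          rfl
        have h3 : Es s (us s0 (s + 1) f) = us s0 s f := funext h1
        rw [h3]
        have h4 : (fun x => us s0 (s + 1) f x - us s0 s f x) = Ds s f := by
          funext x
          unfold us Ds
          ring
        rw [h4]
    have husB : ∀ s0 s : ℕ, s0 ≤ s → nsq (us s0 s f) ≤ nsq f := by
      intro s0 s hs
      have h1 := hpyth s f hf
      have h2 := hpyth s0 (Es s f) (hEBM s)
      have h3 : (fun x => Es s f x - Es s0 (Es s f) x) = us s0 s f := by
        funext x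
        rw [(htow s0 s f hf hs x).1]
        rfl
      rw [h3] at h2
      have h4 := LLV_nn (fun x => f x - Es s f x)
      have h5 := LLV_nn (Es s0 (Es s f))
      linarith
    refine ⟨hA, ?_, ?_, ?_⟩
    · intro s0 s hs
      refine ⟨husBM s0 s, husPA s0 s hs, husum s0 s hs, hus0 s0 s hs, husn s0 s hs, ?_⟩
      rw [← husn s0 s hs]
      exact husB s0 s hs
    · intro s0 N hN hPN h0
      have h1 : us s0 N f = f := by
        funext x
        unfold us
        rw [hPr N f hPN x, h0 x, sub_zero]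
      refine ⟨fun x => ?_, ?_⟩
      · rw [← husum s0 N hN x, h1]
      · rw [← husn s0 N hN, h1]
    · intro r hr
      refine ⟨fun h x hx => ?_, fun h x hx => ?_, fun h x hx => ?_⟩
      · unfold Ds
        rw [LLV_sup hLEB h (r := r + 1) (by omega) (a' := 1 / 5) (b' := 4 / 5) (by norm_num) (by norm_num) hx,
          LLV_sup hLEB h hr (a' := 1 / 5) (b' := 4 / 5) (by norm_num) (by norm_num) hx, sub_self]
      · unfold Ds
        rw [LLV_sup hLEB h (r := r + 1) (by omega) (a' := 6 / 25) (b' := 19 / 25) (by norm_num) (by norm_num) hx,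
          LLV_sup hLEB h hr (a' := 6 / 25) (b' := 19 / 25) (by norm_num) (by norm_num) hx, sub_self]
      · exact LLV_sup hLEB h hr (a' := 6 / 25) (b' := 19 / 25) (by norm_num) (by norm_num) hx

end Pool.Agent.helper90.DH
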