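import Pool.Agent.helper48.DH.SpecY

/-! # Project d2 (MP_5823cb_al), part Y, row yMOC: the mollification changes the second antiderivative by `O(h^2)` (helper38) -/

set_option autoImplicit false

open Filter Topology MeasureTheory
open scoped commutatorElement

namespace Pool.Agent.helper90.DH

open Pool.Agent.helper64.D2

theorem yMOC (hCAL : yCAL_stmt) (hMOB : yMOB_stmt) : yMOC_stmt := by
  intro κ hκ v C h hv hC hh hv0 x
  have hAM := (hMOB κ hκ v h hv hh hv0 x).2
  obtain ⟨hc1, -, -, -, hc5, -⟩ := hCAL
  obtain ⟨-, hA2c, -⟩ := hc5 v hv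
  obtain ⟨hκd, hκ0, hκe, hκs, hκi⟩ := hκ
  have hκc : Continuous κ := hκd.continuous
  have hcs : HasCompactSupport κ := HasCompactSupport.intro (K := Set.Icc (-1 : ℝ) 1) isCompact_Icc fun x hx => hκs x hx
  have hint : ∀ G : ℝ → ℝ, Continuous G → Integrable (fun t => κ t * G t) := by
    intro G hG
    exact (hκc.mul hG).integrable_of_hasCompactSupport hcs.mul_right
  obtain ⟨F, hF⟩ : ∃ F : ℝ, F = ∫ t in (0 : ℝ)..x, v t := ⟨_, rfl⟩
  have hodd : (∫ t, κ t * t) = 0 := by
    have h1 : (∫ t, κ (-t) * (-t)) = ∫ t, κ t * t := integral_neg_eq_self (fun t => κ t * t) volume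
    have h2 : (∫ t, κ (-t) * (-t)) = -∫ t, κ t * t := by
      rw [← integral_neg]
      congr 1
      funext t
      rw [hκe]
      ring
    linarith
  have i1 : Integrable (fun t => κ t * A2 v (x - h * t)) := hint (fun t => A2 v (x - h * t)) (hA2c.comp (by fun_prop))
  have i2 : Integrable (fun t => κ t * A2 v x) := hint (fun _ => A2 v x) continuous_const
  have i3 : Integrable (fun t => κ t * t * (h * F)) := (hint (fun t => t) continuous_id).mul_const _
  have e1 : A2 (mol κ h v) x - A2 v x = ∫ t, κ t * (A2 v (x - h * t) - A2 v x + h * t * F) := by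
    have e2 : (∫ t, κ t * (A2 v (x - h * t) - A2 v x + h * t * F)) =
        (∫ t, κ t * A2 v (x - h * t)) - (∫ t, κ t * A2 v x) + ∫ t, κ t * t * (h * F) := by
      have i12 : Integrable (fun t => κ t * A2 v (x - h * t) - κ t * A2 v x) := i1.sub i2
      rw [← integral_sub i1 i2, ← integral_add i12 i3]
      congr 1
      funext t
      ring
    rw [e2, integral_mul_const, integral_mul_const, hκi, hodd, hAM]
    ring
  rw [e1]
  have hb := norm_integral_le_of_norm_le (f := fun t => κ t * (A2 v (x - h * t) - A2 v x + h * t * F)) (g := fun t => κ t * (C * h ^ 2))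
    (hint (fun _ => C * h ^ 2) continuous_const) (by
      refine Eventually.of_forall fun t => ?_
      rw [Real.norm_eq_abs, abs_mul, abs_of_nonneg (hκ0 t)]
      by_cases ht : t ∈ Set.Icc (-1 : ℝ) 1
      · apply mul_le_mul_of_nonneg_left _ (hκ0 t)
        have h3 := ((hc1 v hv (x - h * t) x).2.2.2 C (fun s _ => hC s)).2
        rw [← hF] at h3
        have h4 : A2 v (x - h * t) - A2 v x - (x - h * t - x) * F = A2 v (x - h * t) - A2 v x + h * t * F := by ring
        rw [h4] at h3
        refine h3.trans ?_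
        have hC0 : 0 ≤ C := (abs_nonneg _).trans (hC 0)
        apply mul_le_mul_of_nonneg_left _ hC0
        have h5 : (x - h * t - x) ^ 2 = h ^ 2 * t ^ 2 := by ring
        rw [h5]
        have h6 : t ^ 2 ≤ 1 := by nlinarith [ht.1, ht.2]
        nlinarith [sq_nonneg h]
      · rw [hκs t ht, zero_mul, zero_mul])
  rw [Real.norm_eq_abs, integral_mul_const, hκi, one_mul] at hb
  exact hb

end Pool.Agent.helper90.DH
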